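import Pool.Agent.H711.VO.Final

/-!
# SetIntersection: families of bounded VC-dimension violate the conjectured tradeoff polynomially

Data structures for SetIntersection in the cell-probe model of the library result `DenseCore` of this
problem: a family of `m` subsets of `{0, …, U - 1}` of total size at most `N` is stored in `s` cells of
`w` bits, the query `(i, j)` is answered by an adaptive algorithm which depends on `i` and `j` only,
outputs the intersection of the sets number `i` and `j` and probes at most `a + b op` cells, `op` being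
the size of the intersection. `HasStructureFor m U N P s w a b` is this for the families with the
property `P` only.

Q1 asks whether the space `N ^ 2 / T` is optimal for the query time `T + op`. We show that for the
families of dual VC-dimension at most `d` (no `d + 1` of the sets have all `2 ^ (d + 1)` cells of
their Venn diagram nonempty) the space `N ^ 2 / T ^ (d / (d - 1))`, up to the square of a logarithm,
is sufficient, for all query times `T` between a logarithm and `N ^ ((d - 1) / d)`; for the last one
the space is linear up to logarithms instead of `N ^ (1 + 1 / d)`. So on every class of bounded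
VC-dimension or dual VC-dimension the tradeoff of Q1 fails by a power of `T`, and every sequence of
families which shows that the space `N ^ 2 / T ^ (1 + ε)` is necessary has unbounded VC-dimension.

Proof: sets with fewer than `T / log N` elements are read completely. There are at most
`V = q ^ d` elements (`T ≈ q ^ (d - 1)`) which are in more than `N / V` of the other sets; the common
elements of smaller degree are stored for all pairs, in space `N ^ 2 / V`. The elements of large degree
are put in an order in which every set is made of `O (q ^ (d - 1) + log N)` intervals (the packing lemma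
of Haussler, in the library, and the reweighting of Welzl), and only the end points of the intervals
are stored.
-/

set_option autoImplicit false

namespace Pool.Agent.H711.Old.BoundedDualVC

open Pool.Agent.H711.VO

/-- (1) Let `d ≥ 2`, `q ≥ 1`, `q ^ d ≤ N`, `N ^ 2 < 2 ^ w`, `U ≤ 2 ^ w` and `m ≤ N`. For the families of `m`
subsets of `{0, …, U - 1}` of total size at most `N` of dual VC-dimension at most `d` there is a structure
with `s` cells of `w` bits, `s q ^ d ≤ 2 (log₂ N + 2) ^ 2 N ^ 2`, and at most
`401 q ^ (d - 1) + 6 log₂ N + op` probes.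
(2) The same in terms of the query time: for `802 (log₂ N + 1) ≤ T ≤ N ^ ((d - 1) / d)` there is a
structure with `s` cells, `s T ^ (d / (d - 1)) ≤ 2 ^ (d + 21) (log₂ N + 2) ^ 2 N ^ 2`, and at most `T + op`
probes.
(3) The same for the families of VC-dimension at most `v`, with `d = 2 ^ (v + 1)`. -/
theorem result :
    (∀ d q m U N w : ℕ, 2 ≤ d → 1 ≤ q → q ^ d ≤ N → 2 ≤ N → N ^ 2 < 2 ^ w → U ≤ 2 ^ w → m ≤ N →
      ∃ s : ℕ, s * q ^ d ≤ 2 * (Nat.log 2 N + 2) ^ 2 * N ^ 2 ∧
        HasStructureFor m U N (DualVC d U) s w (401 * q ^ (d - 1) + 6 * Nat.log 2 N) 1) ∧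
    (∀ d m U N w T : ℕ, 2 ≤ d → 2 ≤ N → N ^ 2 < 2 ^ w → U ≤ 2 ^ w → m ≤ N →
      802 * (Nat.log 2 N + 1) ≤ T → T ^ d ≤ N ^ (d - 1) →
      ∃ s : ℕ, (s : ℝ) * (T : ℝ) ^ ((d : ℝ) / ((d : ℝ) - 1)) ≤
          2 ^ (d + 21) * ((Nat.log 2 N : ℝ) + 2) ^ 2 * (N : ℝ) ^ 2 ∧
        HasStructureFor m U N (DualVC d U) s w T 1) ∧
    (∀ v d m U N w T : ℕ, d = 2 ^ (v + 1) → 2 ≤ N → N ^ 2 < 2 ^ w → U ≤ 2 ^ w → m ≤ N →
      802 * (Nat.log 2 N + 1) ≤ T → T ^ d ≤ N ^ (d - 1) →
      ∃ s : ℕ, (s : ℝ) * (T : ℝ) ^ ((d : ℝ) / ((d : ℝ) - 1)) ≤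
          2 ^ (d + 21) * ((Nat.log 2 N : ℝ) + 2) ^ 2 * (N : ℝ) ^ 2 ∧
        HasStructureFor m U N (VC v) s w T 1) := by
  refine ⟨fun _ _ _ _ _ _ hd hq hqN hN hw hUw hm => upper hd hq hqN hN hw hUw hm,
    fun _ _ _ _ _ _ hd hN hw hUw hm hT hTN => tradeoff hd hN hw hUw hm hT hTN, ?_⟩
  intro v d m U N w T hd hN hw hUw hm hT hTN
  have hd2 : 2 ≤ d := by
    rw [hd, pow_succ]
    have := Nat.one_le_two_pow (n := v)
    omega
  obtain ⟨s, hs, hs2⟩ := tradeoff (U := U) hd2 hN hw hUw hm hT hTN
  refine ⟨s, hs, hs2.weaken (le_refl _) (fun F _ h => ?_)⟩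
  rw [hd]
  exact h.dual U

end Pool.Agent.H711.Old.BoundedDualVC
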