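import Pool.Agent.H711.SC.Cube

/-!
# The log-rank conjecture for matrices whose columns have cosets as certificates

Let `r` be the real rank of `F : X × Y → {0,1}`, where `X` is any finite abelian group and `Y` any
finite set. Bob's input `y` may choose a different function `F(·, y)` of Alice's input `x`; nothing
is assumed about the way in which it depends on `y`.

(1) Let every column `F(·, y)` be a combination of at most `s` characters of `X`, and let every one
of `F` have a coset of small index as a certificate: if `F(x, y) = 1` then `F(x + w, y) = 1` for all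
`w` in a subgroup `V = V(x, y)` of index at most `N`. Then
`D(F) ≤ 6 (log₂ N + 1) (log₂ r + log₂ s + 1) (log₂ r + 1)`.

(2) If the ones and the zeros of `F` have such certificates, then `D(F) ≤ 12 (log₂ N + 1)^3
(log₂ r + 1)^2`, without any assumption about the characters. So the log-rank conjecture holds for
all matrices whose columns are functions on a finite abelian group with certificates of
codimension (`log₂` of the index) polylogarithmic in the rank; for `X = F_2^n`: for all matrices whose
columns have polylogarithmic parity certificate complexity, and so for those whose columns are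
computed by parity decision trees of polylogarithmic depth. The size of `X` and the number of its
generators do not enter. (Under the same hypothesis for the XOR function `f(x + y)` the conclusion is
obvious; here Alice does not know Bob's function.)

(3) The log-rank conjecture for XOR functions, in the form for parity certificates, implies the
log-rank conjecture for ALL `F : F_2^n × Y → {0,1}` with Fourier sparse columns:
`D(F) ≤ 6 (C + 1) (log₂ r + log₂ s + 1)^(k + 2)` if all columns have Fourier sparsity at most `s`.

Proof of (1). All columns are combinations of characters from a common set `Σ` with at most `r s`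
elements (the union of the supports of `r` columns that span). If `F(·, y)` is constant on `x + V`,
then also on `x + W`, where `W` is the common kernel of the quotients of two characters of `Σ ∪ {1}`
which are trivial on `V`; and `W` is already the common kernel of at most `log₂ N` of these quotients.
So there are at most `((|Σ| + 1)^2)^(log₂ N) N` such cosets `x + W`, and with each of them goes the
rectangle `(x + W) × {y : F(·, y) = 1 on x + W}`. These rectangles cover the ones of `F`, and a theorem
of Lovász applies. For (2): certificates give a decision tree of depth `log₂ N` which asks for cosets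
of subgroups of index at most `N`, and so at most `N ^ (2 log₂ N)` characters.
-/

set_option autoImplicit false
set_option linter.unusedSectionVars false

namespace Pool.Agent.H711.Old.CosetCertificates

open Finset Module Pool.Agent.H711.SC

/-- `F` has a deterministic two-party protocol with exactly `c` bits. (Protocols exactly as in the
frozen statement S15531: `t` is the transcript so far, `owner t` says who speaks, and the answer is
a function of the transcript.) -/
def HasProtocol {X Y : Type} (F : X → Y → Bool) (c : ℕ) : Prop :=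
  ∃ (owner : List Bool → Bool) (a : List Bool → X → Bool)
      (b : List Bool → Y → Bool) (out : List Bool → Bool),
      ∀ x y, out (Nat.iterate
        (fun t : List Bool => t ++ [if owner t then a t x else b t y]) c []) = F x y

/-- The real rank of the 0/1 matrix of `F`. -/
noncomputable def rk {X Y : Type} [Fintype Y] (F : X → Y → Bool) : ℕ :=
  (Matrix.of fun (x : X) (y : Y) => if F x y then (1 : ℝ) else 0).rank

/-- **The log-rank conjecture for matrices whose columns have cosets of small index as
certificates.** `rk F` is the real rank of the matrix of `F`, protocols are as in S15531. `X` is any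
finite abelian group, `Y` any finite set.
(1) Every column is a combination of at most `s` characters, the ones have certificates of index at
most `N`.
(2) All entries have certificates of index at most `N`.
(3) If the ones of every Boolean function `f` on `F_2^m`, for every `m`, have as certificates cosets of
subspaces of codimension at most `C (log₂ (sparsity f) + 1) ^ k`, then every
`F : F_2^n × Y → {0,1}` all of whose columns have Fourier sparsity at most `s` has a protocol with at
most `6 (C + 1) (log₂ (rk F) + log₂ s + 1) ^ (k + 2)` bits. -/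
theorem result :
    (∀ (X Y : Type) [AddCommGroup X] [Fintype X] [Fintype Y] (F : X → Y → Bool) (s N : ℕ),
      (∀ y, ∃ (S : Finset (AddChar X ℂ)) (a : AddChar X ℂ → ℂ), S.card ≤ s ∧
        ∀ x, (if F x y then (1 : ℂ) else 0) = ∑ χ ∈ S, a χ * χ x) →
      (∀ x y, F x y = true →
        ∃ V : AddSubgroup X, V.index ≤ N ∧ ∀ w ∈ V, F (x + w) y = true) →
      ∃ c : ℕ, HasProtocol F c ∧ (c : ℝ) ≤ 6 * (Real.logb 2 N + 1) *
        (Real.logb 2 (rk F) + Real.logb 2 s + 1) * (Real.logb 2 (rk F) + 1)) ∧
    (∀ (X Y : Type) [AddCommGroup X] [Fintype X] [Fintype Y] (F : X → Y → Bool) (N : ℕ),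
      (∀ x y, ∃ V : AddSubgroup X, V.index ≤ N ∧ ∀ w ∈ V, F (x + w) y = F x y) →
      ∃ c : ℕ, HasProtocol F c ∧ (c : ℝ) ≤ 12 * (Real.logb 2 N + 1) ^ 3 *
        (Real.logb 2 (rk F) + 1) ^ 2) ∧
    (∀ (C : ℝ) (k : ℕ), 0 ≤ C →
      (∀ (m : ℕ) (f : (Fin m → ZMod 2) → Bool) (x : Fin m → ZMod 2), f x = true →
        ∃ (d : ℕ) (V : AddSubgroup (Fin m → ZMod 2)),
          (d : ℝ) ≤ C * (Real.logb 2 (sparsity f) + 1) ^ k ∧ V.index ≤ 2 ^ d ∧
          ∀ w ∈ V, f (x + w) = true) →
      ∀ (n : ℕ) (Y : Type) [Fintype Y] (F : (Fin n → ZMod 2) → Y → Bool) (s : ℕ),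
        (∀ y, sparsity (fun x => F x y) ≤ s) →
        ∃ c : ℕ, HasProtocol F c ∧
          (c : ℝ) ≤ 6 * (C + 1) * (Real.logb 2 (rk F) + Real.logb 2 s + 1) ^ (k + 2)) := by
  classical
  refine ⟨?_, ?_, ?_⟩
  · intro X Y _ _ _ F s N hs hC
    exact sparse_cost F s (fun y => by
      obtain ⟨S, a, hS, ha⟩ := hs y
      exact ⟨S, hS, a, ha⟩) N hC
  · intro X Y _ _ _ F N hC
    rcases Nat.eq_zero_or_pos N with hN | hN
    · -- no entries
      have hX : ∀ x y, F x y = true := by
        intro x y
        obtain ⟨V, hV, -⟩ := hC x y
        rw [hN] at hV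
        exact absurd (Nat.le_zero.mp hV) AddSubgroup.index_ne_zero_of_finite
      refine ⟨0, Pool.Agent.H630R2.LR.Proto.const F true hX, ?_⟩
      have := Pool.Agent.H630R2.LR.logb_nonneg N
      push_cast
      positivity
    · obtain ⟨c, hc, hcc⟩ := sparse_cost F ((N ^ 2) ^ (Nat.log 2 N)) (fun y =>
        (Cert.tree (N := N) (f := fun x => F x y) (fun x => hC x y)).comb hN) N (fun x y h => by
          obtain ⟨V, hV, hF⟩ := hC x y
          exact ⟨V, hV, fun w hw => (hF w hw).trans h⟩)
      refine ⟨c, hc, hcc.trans ?_⟩
      show 6 * (lb N + 1) * (lb (rk F) + lb ((N ^ 2) ^ (Nat.log 2 N)) + 1) * (lb (rk F) + 1) ≤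
        12 * (lb N + 1) ^ 3 * (lb (rk F) + 1) ^ 2
      have hr := lb_nonneg (rk F)
      have hn := lb_nonneg N
      have h1 : (Nat.log 2 N : ℝ) ≤ lb N := Pool.Agent.H630R2.LR.log_le _
      have h0 : (0 : ℝ) ≤ (Nat.log 2 N : ℝ) := Nat.cast_nonneg _
      have h2 : lb ((N ^ 2) ^ (Nat.log 2 N)) ≤ 2 * lb N ^ 2 := by
        rw [lb_pow, lb_pow]
        push_cast
        nlinarith
      have h3 : lb (rk F) + lb ((N ^ 2) ^ (Nat.log 2 N)) + 1 ≤
          2 * (lb N + 1) ^ 2 * (lb (rk F) + 1) := by
        nlinarith [mul_nonneg hn hr, mul_nonneg (mul_nonneg hn hn) hr]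
      calc 6 * (lb N + 1) * (lb (rk F) + lb ((N ^ 2) ^ (Nat.log 2 N)) + 1) * (lb (rk F) + 1)
          ≤ 6 * (lb N + 1) * (2 * (lb N + 1) ^ 2 * (lb (rk F) + 1)) * (lb (rk F) + 1) := by
            refine mul_le_mul_of_nonneg_right (mul_le_mul_of_nonneg_left h3 ?_) ?_
            · positivity
            · positivity
        _ = 12 * (lb N + 1) ^ 3 * (lb (rk F) + 1) ^ 2 := by ring
  · intro C k hC hH n Y _ F s hs
    have hls := lb_nonneg s
    set D : ℝ := C * (lb s + 1) ^ k with hD
    have hD0 : 0 ≤ D := mul_nonneg hC (pow_nonneg (by linarith) k)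
    obtain ⟨c, hc, hcc⟩ := sparse_cost F s (fun y => by
      obtain ⟨S, hS, hC⟩ := comb_sparsity (fun x => F x y)
      exact ⟨S, hS.trans (hs y), hC⟩) (2 ^ ⌊D⌋₊) (fun x y h => by
        obtain ⟨d, V, hd, hV, hF⟩ := hH n (fun x => F x y) x h
        refine ⟨V, hV.trans (Nat.pow_le_pow_right (by norm_num) (Nat.le_floor (hd.trans ?_))), hF⟩
        refine mul_le_mul_of_nonneg_left (pow_le_pow_left₀ ?_ ?_ k) hC
        · have := lb_nonneg (sparsity fun x => F x y)
          unfold lb at this
          linarith
        · have := lb_mono (hs y)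
          unfold lb at this ⊢
          linarith)
    refine ⟨c, hc, hcc.trans ?_⟩
    show 6 * (lb (2 ^ ⌊D⌋₊) + 1) * (lb (rk F) + lb s + 1) * (lb (rk F) + 1) ≤
      6 * (C + 1) * (lb (rk F) + lb s + 1) ^ (k + 2)
    rw [lb_pow, lb_two, mul_one]
    have hfl : ((⌊D⌋₊ : ℕ) : ℝ) ≤ D := Nat.floor_le hD0
    have hfl0 : (0 : ℝ) ≤ ((⌊D⌋₊ : ℕ) : ℝ) := Nat.cast_nonneg _
    have hr := lb_nonneg (rk F)
    set ρ := lb (rk F)
    set δ := ((⌊D⌋₊ : ℕ) : ℝ)
    set Λ := ρ + lb s + 1 with hΛ
    have hΛ1 : 1 ≤ Λ := by linarith
    have h6 : δ ≤ C * Λ ^ k := by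
      refine hfl.trans ?_
      rw [hD]
      exact mul_le_mul_of_nonneg_left (pow_le_pow_left₀ (by linarith) (by linarith) k) hC
    have h7 : (1 : ℝ) ≤ Λ ^ k := one_le_pow₀ (by linarith)
    calc 6 * (δ + 1) * Λ * (ρ + 1) ≤ 6 * (C * Λ ^ k + Λ ^ k) * Λ * Λ := by
          refine mul_le_mul (mul_le_mul_of_nonneg_right ?_ (by linarith)) (by linarith)
            (by linarith) ?_
          · linarith
          · have : 0 ≤ C * Λ ^ k := mul_nonneg hC (by linarith)
            exact mul_nonneg (by linarith) (by linarith)
      _ = 6 * (C + 1) * Λ ^ (k + 2) := by ring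

end Pool.Agent.H711.Old.CosetCertificates
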